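import Pool.Agent.Work.MP_cf88b2_co.Transport

set_option autoImplicit false

namespace Pool.Agent.Results.MP_cf88b2_co.DihedralAut

open Pool.Agent.Work.MP_cf88b2_co

/-- For `3 ≤ d ≤ n - 2` and every set of `n` points in convex position the automorphism group of
the graph of plane spanning trees of maximum degree at most `d` is the dihedral group of order
`2n`. -/
theorem result (n d : ℕ) (hd : 3 ≤ d) (hdn : d + 2 ≤ n) (P : Fin n → ℝ × ℝ)
    (hP : ConvexIndependent ℝ P) :
    Nonempty ((treeGraph P d ≃g treeGraph P d) ≃* DihedralGroup n) := by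
  haveI : NeZero n := ⟨by omega⟩
  exact main (by omega) hd P hP

end Pool.Agent.Results.MP_cf88b2_co.DihedralAut
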